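import Mathlib

namespace Pool.Agent.Results.MP_3f07b9_an.AllOnesRepels

open Filter Topology Matrix

/-- mean of a vector -/
noncomputable def mean {n : ℕ} (x : Fin n → ℝ) : ℝ := (∑ k, x k) / n

/-- Pearson correlation -/
noncomputable def corr {n : ℕ} (x y : Fin n → ℝ) : ℝ :=
  (∑ k, (x k - mean x) * (y k - mean y)) /
    √((∑ k, (x k - mean x) ^ 2) * ∑ k, (y k - mean y) ^ 2)

/-- the correlation map: entry `i j` is the correlation of rows `i` and `j` -/
noncomputable def C {n : ℕ} (A : Matrix (Fin n) (Fin n) ℝ) : Matrix (Fin n) (Fin n) ℝ :=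
  Matrix.of fun i j => corr (A i) (A j)

/-- the elliptope -/
def Elliptope (n : ℕ) : Set (Matrix (Fin n) (Fin n) ℝ) :=
  {A | A.PosSemidef ∧ ∀ i, A i i = 1}

/-- the all-ones matrix -/
def J (n : ℕ) : Matrix (Fin n) (Fin n) ℝ := Matrix.of fun _ _ => 1

/-- sum of squares -/
noncomputable def ss {n : ℕ} (x : Fin n → ℝ) : ℝ := ∑ k, (x k - mean x) ^ 2

lemma ss_nonneg {n : ℕ} (x : Fin n → ℝ) : 0 ≤ ss x := Finset.sum_nonneg fun k _ => sq_nonneg _

lemma ss_pos {n : ℕ} {x : Fin n → ℝ} {i j : Fin n} (h : x i ≠ x j) : 0 < ss x := by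
  rcases (ss_nonneg x).lt_or_eq with h1 | h1
  · exact h1
  · exfalso
    have h2 : ∀ k, (x k - mean x) ^ 2 = 0 := by
      intro k
      exact (Finset.sum_eq_zero_iff_of_nonneg (fun k _ => sq_nonneg _)).mp h1.symm k
        (Finset.mem_univ k)
    have h3 : ∀ k, x k = mean x := fun k => by have := pow_eq_zero_iff (two_ne_zero) |>.mp (h2 k); linarith
    exact h (by rw [h3 i, h3 j])

/-- the variance is minimal at the mean -/
lemma ss_le {n : ℕ} (hn : 0 < n) (x : Fin n → ℝ) (c : ℝ) : ss x ≤ ∑ k, (x k - c) ^ 2 := by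
  have hn' : (n : ℝ) ≠ 0 := by positivity
  have h1 : ∑ k, (x k - mean x) = 0 := by
    rw [Finset.sum_sub_distrib, Finset.sum_const, Finset.card_univ, Fintype.card_fin,
      nsmul_eq_mul]
    unfold mean; field_simp; ring
  have h2 : ∑ k, (x k - c) ^ 2 = ss x + n * (mean x - c) ^ 2 := by
    have : ∀ k, (x k - c) ^ 2 = (x k - mean x) ^ 2 + (2 * (mean x - c)) * (x k - mean x) +
        (mean x - c) ^ 2 := fun k => by ring
    simp only [this]
    rw [Finset.sum_add_distrib, Finset.sum_add_distrib, ← Finset.mul_sum, h1, Finset.sum_const,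
      Finset.card_univ, Fintype.card_fin, nsmul_eq_mul]
    unfold ss; ring
  rw [h2]
  have : 0 ≤ (n : ℝ) * (mean x - c) ^ 2 := by positivity
  linarith

/-- normalised vector -/
noncomputable def z {n : ℕ} (x : Fin n → ℝ) (k : Fin n) : ℝ := (x k - mean x) / √(ss x)

lemma corr_eq {n : ℕ} (x y : Fin n → ℝ) : corr x y = ∑ k, z x k * z y k := by
  unfold corr z
  have h1 : √((∑ k, (x k - mean x) ^ 2) * ∑ k, (y k - mean y) ^ 2) = √(ss x) * √(ss y) :=
    Real.sqrt_mul (ss_nonneg x) _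
  rw [h1, Finset.sum_div]
  apply Finset.sum_congr rfl
  intro k _
  rw [div_mul_div_comm]

lemma sum_z_sq {n : ℕ} {x : Fin n → ℝ} (h : 0 < ss x) : ∑ k, z x k ^ 2 = 1 := by
  unfold z
  simp only [div_pow, Real.sq_sqrt h.le]
  rw [← Finset.sum_div]
  exact div_self h.ne'

lemma entry_facts {n : ℕ} {A : Matrix (Fin n) (Fin n) ℝ} (hA : A ∈ Elliptope n) :
    (∀ i j, A i j = A j i) ∧ (∀ i j, A i j ≤ 1) ∧
    ∀ i j k, 1 - A j k ≤ 2 * ((1 - A i j) + (1 - A i k)) := by
  obtain ⟨hP, hd⟩ := hA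
  have hs : ∀ i j, A i j = A j i := by
    intro i j
    have h := hP.1.apply j i
    simpa using h
  refine ⟨hs, fun i j => ?_, fun i j k => ?_⟩
  · have h := hP.dotProduct_mulVec_nonneg (Pi.single i 1 - Pi.single j 1)
    simp only [star_trivial, Matrix.mulVec_sub, sub_dotProduct, dotProduct_sub,
      Matrix.mulVec_single_one, single_one_dotProduct, Matrix.col_apply] at h
    rw [hd, hd, hs j i] at h
    linarith
  · have h := hP.dotProduct_mulVec_nonneg
      (Pi.single j 1 + Pi.single k 1 - (2 : ℝ) • Pi.single i 1)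
    simp only [star_trivial, Matrix.mulVec_sub, Matrix.mulVec_add, Matrix.mulVec_smul,
      add_dotProduct, dotProduct_add, sub_dotProduct, dotProduct_sub, smul_dotProduct,
      dotProduct_smul, Matrix.mulVec_single_one, single_one_dotProduct, Matrix.col_apply,
      smul_eq_mul] at h
    rw [hd, hd, hd, hs j i, hs k i, hs k j] at h
    linarith

lemma eq_J_of_row {n : ℕ} {A : Matrix (Fin n) (Fin n) ℝ} (hA : A ∈ Elliptope n) {i : Fin n}
    (h : ∀ j, A i j = A i i) : A = J n := by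
  obtain ⟨h1, h2, h3⟩ := entry_facts hA
  ext j k
  have h4 := h3 i j k
  rw [h j, h k, hA.2 i] at h4
  have h5 := h2 j k
  show A j k = 1
  linarith

lemma row_nonconst {n : ℕ} {A : Matrix (Fin n) (Fin n) ℝ} (hA : A ∈ Elliptope n) (hne : A ≠ J n)
    (i : Fin n) : 0 < ss (A i) := by
  by_contra hcon
  apply hne
  apply eq_J_of_row hA (i := i)
  intro j
  by_contra hj
  exact hcon (ss_pos hj)

lemma C_mem {n : ℕ} {A : Matrix (Fin n) (Fin n) ℝ} (h : ∀ i, 0 < ss (A i)) :
    C A ∈ Elliptope n := by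
  constructor
  · have : C A = (Matrix.of fun i k => z (A i) k) * (Matrix.of fun i k => z (A i) k)ᴴ := by
      ext i j
      rw [Matrix.mul_apply]
      simp only [C, Matrix.of_apply, Matrix.conjTranspose_apply, star_trivial]
      exact corr_eq _ _
    rw [this]
    exact Matrix.posSemidef_self_mul_conjTranspose _
  · intro i
    show corr (A i) (A i) = 1
    rw [corr_eq, ← sum_z_sq (h i)]
    exact Finset.sum_congr rfl fun k _ => by ring

/-- The key estimate. -/
lemma key {n : ℕ} {A : Matrix (Fin n) (Fin n) ℝ} (hA : A ∈ Elliptope n) (hne : A ≠ J n) :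
    2 ≤ n ∧ ∃ p q, C A p q ≤ 1 - 1 / ((n : ℝ) - 1) := by
  obtain ⟨hs, hle, _⟩ := entry_facts hA
  -- a pair with entry < 1
  obtain ⟨i₀, j₀, h0⟩ : ∃ i j, A i j ≠ 1 := by
    by_contra hcon
    push Not at hcon
    exact hne (by ext i j; exact hcon i j)
  haveI : Nonempty (Fin n × Fin n) := ⟨(i₀, j₀)⟩
  obtain ⟨⟨p, q⟩, hpq⟩ := Finite.exists_max fun x : Fin n × Fin n => 1 - A x.1 x.2
  have hmax : ∀ i j, 1 - A i j ≤ 1 - A p q := fun i j => hpq (i, j)
  set D : ℝ := 1 - A p q with hD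
  have hDpos : 0 < D := by
    have h1 := hmax i₀ j₀
    have h2 := lt_of_le_of_ne (hle i₀ j₀) h0
    linarith
  have hpq' : p ≠ q := by
    rintro rfl
    rw [hD, hA.2 p] at hDpos
    simp at hDpos
  have hn2 : 2 ≤ n := by
    have h1 := p.2
    have h2 := q.2
    have h3 : (p : ℕ) ≠ q := fun h => hpq' (Fin.ext h)
    omega
  refine ⟨hn2, p, q, ?_⟩
  have hn1 : (0 : ℝ) < (n : ℝ) - 1 := by
    have : (2 : ℝ) ≤ n := by exact_mod_cast hn2
    linarith
  -- size of the rows
  have hss : ∀ i, ss (A i) ≤ ((n : ℝ) - 1) * D ^ 2 := by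
    intro i
    calc ss (A i) ≤ ∑ k, (A i k - 1) ^ 2 := ss_le (by omega) _ _
      _ = ∑ k ∈ Finset.univ.erase i, (A i k - 1) ^ 2 := by
          rw [← Finset.add_sum_erase _ _ (Finset.mem_univ i), hA.2 i]; simp
      _ ≤ ∑ k ∈ Finset.univ.erase i, D ^ 2 := by
          apply Finset.sum_le_sum
          intro k _
          have h1 := hmax i k
          have h2 := hle i k
          have h3 : (A i k - 1) ^ 2 = (1 - A i k) ^ 2 := by ring
          rw [h3]
          exact pow_le_pow_left₀ (by linarith) h1 2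
      _ = ((n : ℝ) - 1) * D ^ 2 := by
          rw [Finset.sum_const, Finset.card_erase_of_mem (Finset.mem_univ i), Finset.card_univ,
            Fintype.card_fin, nsmul_eq_mul, Nat.cast_sub (by omega)]
          simp
  have hssp := row_nonconst hA hne p
  have hssq := row_nonconst hA hne q
  set a : ℝ := D / √(ss (A p)) with ha
  set b : ℝ := D / √(ss (A q)) with hb
  have hlow : ∀ i, 0 < ss (A i) → √(1 / ((n : ℝ) - 1)) ≤ D / √(ss (A i)) := by
    intro i hi
    apply Real.sqrt_le_iff.mpr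
    refine ⟨by positivity, ?_⟩
    rw [div_pow, Real.sq_sqrt hi.le, div_le_div_iff₀ hn1 hi, one_mul]
    have := hss i
    linarith
  have hac := hlow p hssp
  have hbc := hlow q hssq
  have hc0 : 0 ≤ √(1 / ((n : ℝ) - 1)) := Real.sqrt_nonneg _
  have hc2 : √(1 / ((n : ℝ) - 1)) ^ 2 = 1 / ((n : ℝ) - 1) := Real.sq_sqrt (by positivity)
  set v : Fin n → ℝ := fun k => z (A p) k - z (A q) k with hv
  have hvq : v q - v p = -(a + b) := by
    simp only [hv, z, ha, hb, hD]
    rw [hA.2 p, hA.2 q, hs q p]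
    ring
  have hsum : ∑ k, v k ^ 2 = 2 - 2 * C A p q := by
    have h1 := sum_z_sq hssp
    have h2 := sum_z_sq hssq
    have h3 : C A p q = ∑ k, z (A p) k * z (A q) k := corr_eq _ _
    rw [h3]
    have h4 : ∑ k, v k ^ 2 = ∑ k, z (A p) k ^ 2 + ∑ k, z (A q) k ^ 2 -
        2 * ∑ k, z (A p) k * z (A q) k := by
      rw [Finset.mul_sum, ← Finset.sum_add_distrib, ← Finset.sum_sub_distrib]
      exact Finset.sum_congr rfl fun k _ => by simp only [hv]; ring
    rw [h4, h1, h2]; ring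
  have hge : v p ^ 2 + v q ^ 2 ≤ ∑ k, v k ^ 2 := by
    rw [← Finset.sum_pair hpq' (f := fun k => v k ^ 2)]
    exact Finset.sum_le_sum_of_subset_of_nonneg (Finset.subset_univ _)
      fun k _ _ => sq_nonneg _
  have h5 : (a + b) ^ 2 ≤ 2 * (v p ^ 2 + v q ^ 2) := by
    have : (a + b) ^ 2 = (v q - v p) ^ 2 := by rw [hvq]; ring
    rw [this]
    nlinarith [sq_nonneg (v q + v p)]
  have h6 : 4 * (1 / ((n : ℝ) - 1)) ≤ (a + b) ^ 2 := by
    rw [← hc2]
    nlinarith
  linarith

lemma orbit {n : ℕ} {A : Matrix (Fin n) (Fin n) ℝ} (hA : A ∈ Elliptope n) (hne : A ≠ J n) :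
    ∀ k, C^[k] A ∈ Elliptope n ∧ C^[k] A ≠ J n := by
  intro k
  induction k with
  | zero => exact ⟨hA, hne⟩
  | succ k ih =>
    rw [Function.iterate_succ_apply']
    refine ⟨C_mem fun i => row_nonconst ih.1 ih.2 i, ?_⟩
    obtain ⟨hn, p, q, h⟩ := key ih.1 ih.2
    intro hJ
    rw [hJ] at h
    have h1 : (J n) p q = 1 := rfl
    rw [h1] at h
    have hn1 : (0 : ℝ) < (n : ℝ) - 1 := by
      have : (2 : ℝ) ≤ n := by exact_mod_cast hn
      linarith
    have : 0 < 1 / ((n : ℝ) - 1) := by positivity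
    linarith

/-- **Main theorem** (the answer to Q1 is no).  Let `A₀` be a matrix of the elliptope different
from the all-ones matrix.  Then `n ≥ 2`, the orbit `C^k(A₀)` stays in the elliptope and never
equals the all-ones matrix, for every `k ≥ 1` some entry of `C^k(A₀)` is at most `1 - 1/(n-1)`,
the entrywise distance of the orbit to the all-ones matrix is bounded below by a positive
constant, and the all-ones matrix is not an accumulation point of the orbit. -/
theorem result (n : ℕ) (A₀ : Matrix (Fin n) (Fin n) ℝ) (h : A₀ ∈ Elliptope n) (hne : A₀ ≠ J n) :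
    2 ≤ n ∧
    (∀ k, C^[k] A₀ ∈ Elliptope n ∧ C^[k] A₀ ≠ J n) ∧
    (∀ k, 1 ≤ k → ∃ i j, (C^[k] A₀) i j ≤ 1 - 1 / ((n : ℝ) - 1)) ∧
    (∃ δ : ℝ, 0 < δ ∧ ∀ k, ∃ i j, δ ≤ |(C^[k] A₀) i j - 1|) ∧
    ¬ MapClusterPt (J n) atTop (fun k => C^[k] A₀) := by
  have horb := orbit h hne
  have hn := (key h hne).1
  have hn1 : (0 : ℝ) < (n : ℝ) - 1 := by
    have : (2 : ℝ) ≤ n := by exact_mod_cast hn
    linarith
  have hη : 0 < 1 / ((n : ℝ) - 1) := by positivity
  have hbd : ∀ k, 1 ≤ k → ∃ i j, (C^[k] A₀) i j ≤ 1 - 1 / ((n : ℝ) - 1) := by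
    intro k hk
    obtain ⟨k', rfl⟩ : ∃ k', k = k' + 1 := ⟨k - 1, by omega⟩
    rw [Function.iterate_succ_apply']
    exact (key (horb k').1 (horb k').2).2
  refine ⟨hn, horb, hbd, ?_, ?_⟩
  · obtain ⟨i₀, j₀, h0⟩ : ∃ i j, A₀ i j ≠ 1 := by
      by_contra hcon
      push Not at hcon
      exact hne (by ext i j; exact hcon i j)
    refine ⟨min |A₀ i₀ j₀ - 1| (1 / ((n : ℝ) - 1)),
      lt_min (abs_pos.mpr (sub_ne_zero.mpr h0)) hη, fun k => ?_⟩
    rcases Nat.eq_zero_or_pos k with rfl | hk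
    · exact ⟨i₀, j₀, min_le_left _ _⟩
    · obtain ⟨i, j, hij⟩ := hbd k hk
      refine ⟨i, j, le_trans (min_le_right _ _) ?_⟩
      rw [abs_sub_comm]
      exact le_trans (by linarith) (le_abs_self _)
  · intro hcl
    have hU : {X : Matrix (Fin n) (Fin n) ℝ | ∀ i j, 1 - 1 / ((n : ℝ) - 1) < X i j} ∈
        𝓝 (J n) := by
      apply IsOpen.mem_nhds
      · have : {X : Matrix (Fin n) (Fin n) ℝ | ∀ i j, 1 - 1 / ((n : ℝ) - 1) < X i j} =
            ⋂ i, ⋂ j, {X : Matrix (Fin n) (Fin n) ℝ | 1 - 1 / ((n : ℝ) - 1) < X i j} := by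
          ext X; simp
        rw [this]
        refine isOpen_iInter_of_finite fun i => isOpen_iInter_of_finite fun j => ?_
        exact isOpen_lt continuous_const (continuous_id.matrix_elem i j)
      · intro i j
        show 1 - 1 / ((n : ℝ) - 1) < 1
        linarith
    have h1 := (mapClusterPt_iff_frequently.mp hcl) _ hU
    obtain ⟨k, hk1, hk2⟩ := (h1.and_eventually (eventually_ge_atTop 1)).exists
    obtain ⟨i, j, hij⟩ := hbd k hk2
    exact absurd (hk1 i j) (not_lt.mpr hij)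

end Pool.Agent.Results.MP_3f07b9_an.AllOnesRepels
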